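import Mathlib
import Pool.Agent.Helper23_QRoots.Main

set_option autoImplicit false

namespace Pool.Agent.Results.MP_6980f8_al.PathConnected

open scoped Quaternion

/-- For every `n`, every nilpotent `n × n` matrix `A` over the real quaternions and every positive
integer `p`, the set of `p`-th roots of `A` is path-connected (if it is nonempty). -/
theorem result (n : ℕ) (A : Matrix (Fin n) (Fin n) ℍ[ℝ]) (hA : IsNilpotent A) (p : ℕ)
    (hp : 0 < p) (hne : {X : Matrix (Fin n) (Fin n) ℍ[ℝ] | X ^ p = A}.Nonempty) :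
    IsPathConnected {X : Matrix (Fin n) (Fin n) ℍ[ℝ] | X ^ p = A} := by
  obtain ⟨X, hX⟩ := hne
  exact ⟨X, hX, fun {Y} hY => Pool.Agent.Helper23_QRoots.roots_joined hp hA hX hY⟩

end Pool.Agent.Results.MP_6980f8_al.PathConnected
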